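import Mathlib
set_option autoImplicit false
namespace Pool.Agent.Results.MP_8cf907_al.Classical
open Equiv

/-- A magic unitary: projections with all row sums and column sums equal to 1. -/
def Magic {X A : Type*} [Fintype X] [Ring A] [StarRing A] (u : Matrix X X A) : Prop :=
  (∀ i j, u i j = star (u i j) ∧ u i j = u i j * u i j) ∧ (∀ i, ∑ j, u i j = 1) ∧
    ∀ j, ∑ i, u i j = 1

/-- Edges of the complete hypergraph; the source is the first and the range the second set. -/
abbrev Edge (V : Type) := Finset V × Finset V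

/-- The defining relations of the quantum automorphism group of the complete hypergraph. -/
def Rel {V A : Type*} [Fintype V] [DecidableEq V] [Ring A] [StarRing A] (u : Matrix V V A)
    (w : Matrix (Finset V × Finset V) (Finset V × Finset V) A) : Prop :=
  Magic u ∧ Magic w ∧
    (Matrix.of fun v (e : Finset V × Finset V) => if v ∈ e.1 then (1 : A) else 0) * w =
      u * Matrix.of (fun v (e : Finset V × Finset V) => if v ∈ e.1 then (1 : A) else 0) ∧
    (Matrix.of fun v (e : Finset V × Finset V) => if v ∈ e.2 then (1 : A) else 0) * w =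
      u * Matrix.of fun v (e : Finset V × Finset V) => if v ∈ e.2 then (1 : A) else 0

/-- The vertex generators of C(S_V): the indicator of sigma x = v. -/
def uS (V : Type) [DecidableEq V] : Matrix V V (Perm V → ℂ) :=
  fun v x σ => if σ x = v then 1 else 0

/-- The edge generators of C(S_V): the indicator of (sigma X, sigma Y) = e for f = (X, Y). -/
def wS (V : Type) [DecidableEq V] : Matrix (Edge V) (Edge V) (Perm V → ℂ) :=
  fun e f σ => if (f.1.image σ, f.2.image σ) = e then 1 else 0

lemma orth {X A : Type*} [Fintype X] [CStarAlgebra A] (p : X → A)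
    (h : ∀ i, p i = star (p i) ∧ p i = p i * p i) (h1 : ∑ i, p i = 1) {i j : X} (hij : i ≠ j) :
    p i * p j = 0 := by
  classical
  let _ := CStarAlgebra.spectralOrder A
  have := CStarAlgebra.spectralOrderedRing A
  have e : ∀ k, star (p k * p j) * (p k * p j) = p j * p k * p j := fun k => by
    rw [star_mul, ← (h k).1, ← (h j).1, mul_assoc, ← mul_assoc (p k), ← (h k).2, mul_assoc]
  have s : ∑ k ∈ Finset.univ.erase j, star (p k * p j) * (p k * p j) = 0 := by
    have : ∑ k, star (p k * p j) * (p k * p j) = p j := by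
      simp only [e, ← Finset.sum_mul, ← Finset.mul_sum, h1, mul_one, ← (h j).2]
    rw [← Finset.add_sum_erase _ _ (Finset.mem_univ j), e, ← (h j).2, ← (h j).2] at this
    simpa using this
  exact (CStarRing.star_mul_self_eq_zero_iff _).1 ((Finset.sum_eq_zero_iff_of_nonneg
    fun k _ => star_mul_self_nonneg _).1 s i (by simp [hij]))

lemma deltaC {V B : Type*} [Fintype V] [DecidableEq V] [CommRing B] [StarRing B] (u : V → V → B)
    (hs : ∀ v x, star (u v x) = u v x)
    (hc : ∀ v v' x, u v x * u v' x = if v' = v then u v' x else 0)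
    (hr : ∀ v x x', x ≠ x' → u v x * u v x' = 0) (h1 : ∀ x, ∑ v, u v x = 1) :
    ∃ δ : Perm V → B, (∀ σ, star (δ σ) = δ σ) ∧ (∀ σ τ, δ σ * δ τ = if σ = τ then δ σ else 0) ∧
      ∑ σ, δ σ = 1 ∧ ∀ v x σ, u v x * δ σ = if σ x = v then δ σ else 0 := by
  classical
  have k : ∀ v x (σ : Perm V), u v x * ∏ y, u (σ y) y =
      if σ x = v then ∏ y, u (σ y) y else 0 := fun v x σ => by
    rw [← Finset.mul_prod_erase _ _ (Finset.mem_univ x), ← mul_assoc, hc]
    split_ifs <;> simp
  refine ⟨fun σ => ∏ y, u (σ y) y, fun σ => by simp [hs], fun σ τ => ?_, ?_, k⟩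
  · split_ifs with h
    · subst h
      rw [← Finset.prod_mul_distrib]
      simp [hc]
    · obtain ⟨x, hx⟩ : ∃ x, τ x ≠ σ x := by
        by_contra h'
        push Not at h'
        exact h (Equiv.ext fun x => (h' x).symm)
      rw [← Finset.prod_mul_distrib]
      exact Finset.prod_eq_zero (Finset.mem_univ x) (by simp [hc, hx])
  · symm
    calc (1 : B) = ∑ p : V → V, ∏ y, u (p y) y := by
          rw [← Fintype.piFinset_univ,
            ← Finset.prod_univ_sum (fun _ : V => Finset.univ) fun y v => u v y]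
          simp [h1]
      _ = ∑ p : V → V with Function.Bijective p, ∏ y, u (p y) y := by
          refine (Finset.sum_subset (Finset.filter_subset _ _) fun p _ hp => ?_).symm
          obtain ⟨i, j, h, hij⟩ : ∃ i j, p i = p j ∧ i ≠ j := by
            rw [Finset.mem_filter_univ, ← Finite.injective_iff_bijective, Function.Injective] at hp
            push Not at hp
            exact hp
          rw [← Finset.mul_prod_erase _ _ (Finset.mem_univ i),
            ← Finset.mul_prod_erase _ _ (show j ∈ Finset.univ.erase i by simp [hij.symm]),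
            ← mul_assoc, h, hr _ _ _ hij, zero_mul]
      _ = _ := Finset.sum_bij (fun p h => Equiv.ofBijective p (Finset.mem_filter.1 h).2)
          (fun _ _ => Finset.mem_univ _) (fun _ _ _ _ h => by injection h)
          (fun b _ => ⟨b, Finset.mem_filter.2 ⟨Finset.mem_univ _, b.bijective⟩,
            Equiv.coe_fn_injective rfl⟩) fun _ _ => rfl

section
variable {V : Type} [Fintype V] [DecidableEq V] {A : Type*} [CStarAlgebra A]
  {u : Matrix V V A} {w : Matrix (Edge V) (Edge V) A}

lemma col (h : Rel u w) (e e' f : Edge V) : w e f * w e' f = if e' = e then w e f else 0 := by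
  split_ifs with k
  · rw [k, ← (h.2.1.1 e f).2]
  · exact orth (fun e => w e f) (fun e => h.2.1.1 e f) (h.2.1.2.2 f) (Ne.symm k)

lemma rel1 (h : Rel u w) (v : V) (f : Edge V) :
    ∑ e, (if v ∈ e.1 then w e f else 0) = ∑ x, if x ∈ f.1 then u v x else 0 := by
  simpa [Matrix.mul_apply, -Finset.sum_ite_mem] using congrFun (congrFun h.2.2.1 v) f

lemma rel2 (h : Rel u w) (v : V) (f : Edge V) :
    ∑ e, (if v ∈ e.2 then w e f else 0) = ∑ x, if x ∈ f.2 then u v x else 0 := by
  simpa [Matrix.mul_apply, -Finset.sum_ite_mem] using congrFun (congrFun h.2.2.2 v) f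

lemma comm (h : Rel u w) (v x v' x' : V) : u v x * u v' x' = u v' x' * u v x := by
  have a := rel1 h v ({x}, {x'})
  have b := rel2 h v' ({x}, {x'})
  simp only [Finset.mem_singleton, Finset.sum_ite_eq', Finset.mem_univ, if_true] at a b
  rw [← a, ← b]
  refine Commute.sum_left _ _ _ fun e _ => Commute.sum_right _ _ _ fun e' _ => ?_
  split_ifs
  · show _ * _ = _ * _
    rw [col h, col h]
    by_cases k : e = e'
    · rw [k]
    · simp [k, Ne.symm k]
  all_goals simp

open scoped IsMulCommutative in
lemma delta (h : Rel u w) : ∃ δ : Perm V → A, (∀ σ, star (δ σ) = δ σ) ∧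
    (∀ σ τ, δ σ * δ τ = if σ = τ then δ σ else 0) ∧
      ∑ σ, δ σ = 1 ∧ ∀ v x σ, u v x * δ σ = if σ x = v then δ σ else 0 := by
  let s : Set A := Set.range fun p : V × V => u p.1 p.2
  have := StarAlgebra.isMulCommutative_adjoin ℂ (s := s)
    (by rintro _ ⟨p, rfl⟩ _ ⟨q, rfl⟩; exact comm h _ _ _ _)
    (by rintro _ ⟨p, rfl⟩ _ ⟨q, rfl⟩; rw [← (h.1.1 _ _).1]; exact comm h _ _ _ _)
  obtain ⟨δ, h1, h2, h3, h4⟩ := deltaC (B := StarAlgebra.adjoin ℂ s)
    (fun v x => ⟨u v x, StarAlgebra.subset_adjoin ℂ s ⟨(v, x), rfl⟩⟩)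
    (fun v x => Subtype.ext (h.1.1 v x).1.symm)
    (fun v v' x => Subtype.ext (by
      split_ifs with k
      · rw [k]; exact (h.1.1 v x).2.symm
      · exact orth (fun v => u v x) (fun v => h.1.1 v x) (h.1.2.2 x) (Ne.symm k)))
    (fun v x x' k => Subtype.ext (orth (u v) (h.1.1 v) (h.1.2.1 v) k))
    (fun x => Subtype.ext (by simpa using h.1.2.2 x))
  refine ⟨fun σ => δ σ, fun σ => congrArg Subtype.val (h1 σ), fun σ τ => ?_,
    by simpa using congrArg Subtype.val h3, fun v x σ => ?_⟩
  · have := congrArg Subtype.val (h2 σ τ)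
    split_ifs at this ⊢ <;> exact this
  · have := congrArg Subtype.val (h4 v x σ)
    split_ifs at this ⊢ <;> exact this

lemma edge (h : Rel u w) (d : A) (σ : Perm V)
    (hd : ∀ v x, u v x * d = if σ x = v then d else 0) (e f : Edge V) :
    w e f * d = if (f.1.image σ, f.2.image σ) = e then d else 0 := by
  have gen : ∀ (π : Edge V → Finset V) (e : Edge V), (∀ v, ∑ e, (if v ∈ π e then w e f else 0) =
      ∑ x, if x ∈ π f then u v x else 0) → (π f).image σ ≠ π e → w e f * d = 0 := by
    intro π e hπ k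
    obtain ⟨v, hv⟩ : ∃ v, ¬ (v ∈ (π f).image σ ↔ v ∈ π e) := by
      by_contra h'
      push Not at h'
      exact k (Finset.ext h')
    have a : w e f * ∑ e, (if v ∈ π e then w e f else 0) = if v ∈ π e then w e f else 0 := by
      rw [Finset.mul_sum, Finset.sum_eq_single e]
      · split_ifs <;> simp [col h]
      · intro e' _ k; split_ifs <;> simp [col h, k]
      · simp
    have b : (∑ x, if x ∈ π f then u v x else 0) * d = if v ∈ (π f).image σ then d else 0 := by
      rw [Finset.sum_mul, Finset.sum_eq_single (σ.symm v)]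
      · have : v ∈ (π f).image σ ↔ σ.symm v ∈ π f := by
          rw [Finset.mem_image]
          exact ⟨by rintro ⟨a, ha, rfl⟩; simpa, fun ha => ⟨_, ha, by simp⟩⟩
        simp only [this]
        split_ifs <;> simp [hd]
      · intro x _ k
        have : σ x ≠ v := by rintro rfl; simp at k
        split_ifs <;> simp [hd, this]
      · simp
    have c := congrArg (· * d) a
    simp only [hπ, mul_assoc, b] at c
    by_cases k1 : v ∈ π e
    · have k2 : v ∉ (π f).image σ := fun k2 => hv (iff_of_true k2 k1)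
      simpa [k1, k2] using c.symm
    · have k2 : v ∈ (π f).image σ := by by_contra k2; exact hv (iff_of_false k2 k1)
      simpa [k1, k2] using c
  have z : ∀ e, (f.1.image σ, f.2.image σ) ≠ e → w e f * d = 0 := fun e k => by
    by_cases k1 : f.1.image σ = e.1
    · exact gen Prod.snd e (fun v => rel2 h v f) fun k2 => k (Prod.ext k1 k2)
    · exact gen Prod.fst e (fun v => rel1 h v f) k1
  split_ifs with k
  · have := congrArg (· * d) (h.2.1.2.2 f)
    simp only [Finset.sum_mul, one_mul] at this
    rw [Finset.sum_eq_single e (fun e' _ k' => z e' (k ▸ k'.symm)) (by simp)] at this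
    exact this
  · exact z e k

lemma univ (h : Rel u w) : ∃! φ : (Perm V → ℂ) →⋆ₐ[ℂ] A,
    (∀ v x, φ (uS V v x) = u v x) ∧ ∀ e f, φ (wS V e f) = w e f := by
  obtain ⟨δ, h1, h2, h3, h4⟩ := delta h
  have ind : ∀ (a : A) (P : Perm V → Prop) [DecidablePred P],
      (∀ σ, a * δ σ = if P σ then δ σ else 0) →
      ∑ σ, (if P σ then (1 : ℂ) else 0) • δ σ = a := fun a P _ ha => by
    rw [← mul_one a, ← h3, Finset.mul_sum]
    exact Finset.sum_congr rfl fun σ _ => by rw [ha]; split_ifs <;> simp
  refine ⟨{ toFun := fun g => ∑ σ, g σ • δ σ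
            map_one' := by simpa using h3
            map_mul' := fun g k => by
              simp [Finset.sum_mul, Finset.mul_sum, h2, smul_smul, mul_comm]
            map_zero' := by simp
            map_add' := fun g k => by simp [add_smul, Finset.sum_add_distrib]
            commutes' := fun c => by
              simp [← Finset.smul_sum, h3, Algebra.algebraMap_eq_smul_one]
            map_star' := fun g => by simp [star_sum, h1] },
    ⟨fun v x => ind _ _ (h4 v x), fun e f => ind _ _ fun σ => edge h _ σ (fun v x => h4 v x σ) e f⟩,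
    fun ψ hψ => ?_⟩
  have p : ∀ (σ : Perm V) (s : Finset V), ψ (∏ x ∈ s, uS V (σ x) x) * δ σ = δ σ := fun σ s => by
    induction s using Finset.induction with
    | empty => simp
    | insert x s hx ih => rw [Finset.prod_insert hx, map_mul, mul_assoc, ih, hψ.1, h4, if_pos rfl]
  have q : ∀ σ : Perm V, ∏ x, uS V (σ x) x = Pi.single σ 1 := fun σ => by
    ext τ
    by_cases k : τ = σ
    · simp [uS, k]
    · obtain ⟨x, hx⟩ : ∃ x, τ x ≠ σ x := by
        by_contra h'
        push Not at h'
        exact k (Equiv.ext h')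
      rw [Pi.single_eq_of_ne k, Finset.prod_apply]
      exact Finset.prod_eq_zero (Finset.mem_univ x) (by simp [uS, hx])
  have r : ∀ σ τ : Perm V, ψ (Pi.single σ 1) * δ τ = if σ = τ then δ τ else 0 := fun σ τ => by
    have := p τ Finset.univ
    rw [q] at this
    split_ifs with k
    · rw [k, this]
    · rw [← this, ← mul_assoc, ← map_mul, ← Pi.single_mul_left]
      simp [Pi.single_eq_of_ne k]
  ext g
  show ψ g = ∑ σ, g σ • δ σ
  rw [pi_eq_sum_univ' g, map_sum]
  refine Finset.sum_congr rfl fun σ _ => ?_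
  have := ind (ψ (Pi.single σ 1)) (fun τ => σ = τ) (r σ)
  rw [map_smul, ← this]
  simp [Pi.single_apply]
end

lemma relS (V : Type) [Fintype V] [DecidableEq V] : Rel (uS V) (wS V) := by
  have key : ∀ (π : Edge V → Finset V), (∀ (f : Edge V) (σ : Perm V),
      π (f.1.image σ, f.2.image σ) = (π f).image σ) →
      (Matrix.of fun v (e : Edge V) => if v ∈ π e then (1 : Perm V → ℂ) else 0) * wS V =
      uS V * Matrix.of (fun v (e : Edge V) => if v ∈ π e then (1 : Perm V → ℂ) else 0) := by
    intro π hπ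
    ext v f σ
    simp only [Matrix.mul_apply, Finset.sum_apply, Pi.mul_apply, Matrix.of_apply, uS, wS]
    rw [Finset.sum_eq_single (f.1.image σ, f.2.image σ), Finset.sum_eq_single (σ.symm v)]
    · have : v ∈ (π f).image σ ↔ σ.symm v ∈ π f := by
        rw [Finset.mem_image]
        exact ⟨by rintro ⟨a, ha, rfl⟩; simpa, fun ha => ⟨_, ha, by simp⟩⟩
      simp only [hπ, this]
      split_ifs <;> simp_all
    · intro x _ k
      have : σ x ≠ v := by rintro rfl; simp at k
      simp [this]
    · simp
    · intro e _ k; simp [k.symm]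
    · simp
  refine ⟨⟨fun i j => ⟨?_, ?_⟩, fun i => ?_, fun j => ?_⟩, ⟨fun i j => ⟨?_, ?_⟩, fun i => ?_,
    fun j => ?_⟩, key Prod.fst fun _ _ => rfl, key Prod.snd fun _ _ => rfl⟩
  · ext σ; simp [uS]
  · ext σ; simp [uS]
  · ext σ; simp [uS, ← Equiv.eq_symm_apply]
  · ext σ; simp [uS]
  · ext σ; simp [wS]
  · ext σ; simp [wS]
  · ext σ
    simp only [wS, Finset.sum_apply, Pi.one_apply]
    rw [Finset.sum_eq_single (i.1.image σ.symm, i.2.image σ.symm)]
    · simp [Finset.image_image]
    · intro f _ k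
      rw [if_neg]
      rintro rfl
      simp [Finset.image_image] at k
    · simp
  · ext σ; simp [wS]

abbrev M2 := Matrix (Fin 2) (Fin 2) ℂ

noncomputable def p0 : M2 := !![1, 0; 0, 0]
noncomputable def q0 : M2 := !![1 / 2, 1 / 2; 1 / 2, 1 / 2]

open scoped Matrix.Norms.L2Operator in
lemma ex : ∃ (A : Type) (_ : CStarAlgebra A) (p q : A), star p = p ∧ star q = q ∧ p * p = p ∧
    q * q = q ∧ p * q ≠ q * p := by
  refine ⟨M2, inferInstance, p0, q0, ?_, ?_, ?_, ?_, fun h => ?_⟩
  · ext i j; fin_cases i <;> fin_cases j <;> simp [p0, Matrix.star_apply]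
  · ext i j; fin_cases i <;> fin_cases j <;> simp [q0, Matrix.star_apply]
  · ext i j; fin_cases i <;> fin_cases j <;> simp [p0, Matrix.mul_apply]
  · ext i j; fin_cases i <;> fin_cases j <;> simp [q0, Matrix.mul_apply] <;> norm_num
  · have := congrArg (fun m : M2 => m 0 1) h
    simp [p0, q0, Matrix.mul_apply] at this

theorem result :
    (∀ (V : Type) [Fintype V] [DecidableEq V], Rel (uS V) (wS V) ∧
      ∀ (A : Type) [CStarAlgebra A] (u : Matrix V V A) (w : Matrix (Edge V) (Edge V) A),
        Rel u w → ∃! φ : (Perm V → ℂ) →⋆ₐ[ℂ] A,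
          (∀ v x, φ (uS V v x) = u v x) ∧ ∀ e f, φ (wS V e f) = w e f) ∧
    ∃ (A : Type) (_ : CStarAlgebra A) (u : Matrix (Fin 4) (Fin 4) A),
      Magic u ∧ ¬ ∃ w, Rel u w := by
  obtain ⟨A, _, p, q, p1, q1, p2, q2, h⟩ := ex
  refine ⟨fun V _ _ => ⟨relS V, fun A _ u w h => univ h⟩, A, inferInstance,
    !![p, 1 - p, 0, 0; 1 - p, p, 0, 0; 0, 0, q, 1 - q; 0, 0, 1 - q, q],
    ⟨fun i j => ?_, fun i => ?_, fun j => ?_⟩, fun ⟨w, k⟩ => h (comm k 0 0 2 2)⟩
  · fin_cases i <;> fin_cases j <;> simp [p1, q1, p2, q2, sub_mul, mul_sub]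
  · fin_cases i <;> simp [Fin.sum_univ_four]
  · fin_cases j <;> simp [Fin.sum_univ_four]

end Pool.Agent.Results.MP_8cf907_al.Classical
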